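import Mathlib
import Pool.Agent.Helper28.M.Q12

/-!
# Theorem M+: the Jacobian determinant, for any dimensions

For general coefficients the Jacobian determinant in any `l` affine coordinates of a factor is not
a zero divisor modulo the ideal.
-/

set_option autoImplicit false

namespace Pool.Agent.Helper28.MX

open MvPolynomial Pool.Agent.Helper47.M Pool.Agent.Helper28.M

variable {k l : ℕ} {N : Fin k → ℕ} {d : Fin l → Fin k → ℕ}

/-- The Jacobian determinant in the affine coordinates `τ j` of the factor `r`. -/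
noncomputable def Jd {K : Type*} [Field K] (c : Tx N d → K) (r : Fin k) (τ : Fin l → Fin (N r)) :
    MvPolynomial (Vr N) K :=
  (Matrix.of fun i j => pderiv (⟨r, τ j⟩ : Vr N) (Fm (fun e => C (c e)) (ch K N) i)).det

/-- The same over a ring. -/
noncomputable def JS {S : Type*} [CommRing S] (c : Tx N d → S) (r : Fin k)
    (τ : Fin l → Fin (N r)) : Pl N S :=
  (Matrix.of fun i j => pderiv (⟨r, τ j⟩ : Vr N) (FR c i)).det

theorem JS_eq {K : Type*} [Field K] (c : Tx N d → K) (r : Fin k) (τ : Fin l → Fin (N r)) :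
    JS c r τ = Jd c r τ := rfl

theorem map_JS {S S' : Type*} [CommRing S] [CommRing S'] (φ : S →+* S') (c : Tx N d → S)
    (r : Fin k) (τ : Fin l → Fin (N r)) :
    MvPolynomial.map φ (JS c r τ) = JS (fun e => φ (c e)) r τ := by
  unfold JS
  rw [RingHom.map_det]
  congr 1
  ext1 i j
  show MvPolynomial.map φ (pderiv (⟨r, τ j⟩ : Vr N) (FR c i)) =
    pderiv (⟨r, τ j⟩ : Vr N) (FR (fun e => φ (c e)) i)
  rw [← map_FR, pderiv_map]

/-- A rational point at which the Jacobian determinant does not vanish. -/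
theorem exists_point (hpos : ∀ i r, 0 < d i r) (r : Fin k) (τ : Fin l → Fin (N r))
    (hτ : Function.Injective τ) :
    ∃ (c : Tx N d → ℚ) (φ : Pl N ℚ →+* ℚ), (∀ i, φ (FR c i) = 0) ∧ φ (JS c r τ) ≠ 0 := by
  classical
  let x0 : Pt N ℚ := fun j => Pi.single 0 1
  have hx0 : ∀ j, x0 j ≠ 0 := fun j h => by
    have := congrFun h 0
    simp [x0] at this
  have hT : ∀ i, ∃ a : Tn N (d i) → ℚ, fv a x0 = 0 ∧
      ∀ b, b 0 = 0 → dv a x0 r b = ∑ i', (Pi.single (τ i).succ (1 : ℚ) :
        Fin (N r + 1) → ℚ) i' * b i' := fun i =>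
    Pool.Agent.Helper94.M.exists_tensor (fun j => hpos i j) x0 hx0 r 0 (by simp [x0]) 0 _
  choose a ha1 ha2 using hT
  let c : Tx N d → ℚ := fun e => a e.1 e.2
  let φ : Pl N ℚ →+* ℚ := eval₂Hom (RingHom.id ℚ) fun q => x0 q.1 q.2.succ
  have hφ : (fun j i => φ (chR N ℚ j i)) = x0 := by
    funext j i
    unfold chR
    refine Fin.cases ?_ (fun q => ?_) i
    · rw [Fin.cons_zero, map_one]
      simp [x0]
    · rw [Fin.cons_succ]
      exact eval₂_X _ _ _
  have hφC : ∀ a : ℚ, φ (C a) = a := fun a => eval₂_C _ _ _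
  refine ⟨c, φ, fun i => ?_, ?_⟩
  · unfold FR
    rw [Fm_map, hφ]
    simp only [hφC]
    exact ha1 i
  · unfold JS
    rw [RingHom.map_det]
    have h1 : φ.mapMatrix (Matrix.of fun i j => pderiv (⟨r, τ j⟩ : Vr N) (FR c i)) = 1 := by
      ext i j
      show φ (pderiv (⟨r, τ j⟩ : Vr N) (FR c i)) = _
      have h2 : pderiv (⟨r, τ j⟩ : Vr N) (FR c i) =
        dF (fun e => C (c e)) (chR N ℚ) r (Pi.single (τ j).succ 1) i :=
        pderiv_FR c i r (τ j)
      rw [h2]
      have h3 : φ (dF (fun e => C (c e)) (chR N ℚ) r (Pi.single (τ j).succ 1) i) =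
          dF c x0 r (Pi.single (τ j).succ 1) i := by
        rw [dF_map', hφ]
        simp only [hφC]
        congr 1
        funext i'
        by_cases hi : i' = (τ j).succ
        · subst hi
          simp
        · rw [Pi.single_eq_of_ne hi, Pi.single_eq_of_ne hi, map_zero]
      rw [h3]
      refine (ha2 i _ ?_).trans ?_
      · rw [Pi.single_eq_of_ne]
        exact (Fin.succ_ne_zero _).symm
      · rw [Finset.sum_eq_single (τ j).succ]
        · rw [Pi.single_eq_same, mul_one, Matrix.one_apply]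
          by_cases hij : i = j
          · rw [if_pos hij, hij, Pi.single_eq_same]
          · rw [if_neg hij, Pi.single_eq_of_ne]
            intro h4
            exact hij (hτ (Fin.succ_injective _ h4)).symm
        · intro i' _ hi'
          rw [Pi.single_eq_of_ne hi', mul_zero]
        · intro h
          exact absurd (Finset.mem_univ _) h
    rw [h1, Matrix.det_one]
    exact one_ne_zero

/-- For general coefficients the Jacobian determinant is not a zero divisor. -/
theorem jac_nzd (hpos : ∀ i r, 0 < d i r) (r : Fin k) (τ : Fin l → Fin (N r))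
    (hτ : Function.Injective τ) :
    ∃ Δ : MvPolynomial (Tx N d) ℚ, Δ ≠ 0 ∧ ∀ (K : Type) [Field K] [CharZero K] (c : Tx N d → K),
      aeval c Δ ≠ 0 → ∀ (n : ℕ) (G : MvPolynomial (Vr N) K), Jd c r τ ^ n * G ∈ idl c →
        G ∈ idl c := by
  obtain ⟨c1, φ1, h1, h2⟩ := exists_point hpos r τ hτ
  have hprime := prime_gc (N := N) (d := d)
  have hden : JS (gc (N := N) (d := d)) r τ ∉ idR (gc (N := N) (d := d)) := by
    intro h3
    have h4 := Ideal.mem_map_of_mem (MvPolynomial.map
      ((aeval c1 : MvPolynomial (Tx N d) ℚ →ₐ[ℚ] ℚ) : MvPolynomial (Tx N d) ℚ →+* ℚ)) h3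
    have e1 : (fun e => ((aeval c1 : MvPolynomial (Tx N d) ℚ →ₐ[ℚ] ℚ) :
        MvPolynomial (Tx N d) ℚ →+* ℚ) (gc e)) = c1 := by
      funext e
      exact aeval_X c1 e
    rw [map_idR, map_JS, e1] at h4
    apply h2
    have h5 : idR c1 ≤ RingHom.ker φ1 := by
      unfold idR
      rw [Ideal.span_le]
      rintro _ ⟨i, rfl⟩
      exact h1 i
    exact h5 h4
  obtain ⟨Δ, hΔ, H⟩ := Pool.Agent.Helper92.GF.exists_nzd.{0, 0, 0} (idR (gc (N := N) (d := d)))
    (JS (gc (N := N) (d := d)) r τ) fun F hF => (hprime.mem_or_mem hF).resolve_left hden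
  refine ⟨Δ, hΔ, fun K _ _ c hc n G hG => ?_⟩
  have e1 : (fun e => ((aeval c : MvPolynomial (Tx N d) ℚ →ₐ[ℚ] K) :
      MvPolynomial (Tx N d) ℚ →+* K) (gc e)) = c := by
    funext e
    exact aeval_X c e
  have h3 := H K ((aeval c : MvPolynomial (Tx N d) ℚ →ₐ[ℚ] K) : MvPolynomial (Tx N d) ℚ →+* K) hc
  rw [map_idR, map_JS, e1, idR_eq, JS_eq] at h3
  induction n with
  | zero => rwa [pow_zero, one_mul] at hG
  | succ n ih =>
    apply ih
    apply h3
    rwa [← mul_assoc, ← pow_succ']

end Pool.Agent.Helper28.MX
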