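import Mathlib

/-!
# Project M: the field of constants of a curve with a uniform parametrisation

`B` is algebraically closed in `E = B(ξ)` if all the conjugates over `B` of the point `ξ` are
specialisations (over the algebraic closure `F` of `B`) of one point `g` with coordinates in a field
`S`.
-/

set_option autoImplicit false

namespace Pool.Agent.Helper28.MX

open Polynomial

universe u

/-- An algebraic element of `B(t)` with `t` transcendental is in `B`. -/
theorem mem_of_mem_adjoin {B Ω : Type*} [Field B] [Field Ω] [Algebra B Ω] {t e : Ω}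
    (ht : Transcendental B t) (he : IsAlgebraic B e) (h : e ∈ IntermediateField.adjoin B {t}) :
    ∃ b : B, algebraMap B Ω b = e := by
  obtain ⟨P, Q, hPQ⟩ := (IntermediateField.mem_adjoin_simple_iff B e).1 h
  by_cases hQ : aeval t Q = 0
  · exact ⟨0, by rw [hPQ, hQ, div_zero, map_zero]⟩
  let M : IntermediateField B Ω := IntermediateField.adjoin B {e}
  have hM : Algebra.IsAlgebraic B M := by
    have := IntermediateField.isAlgebraic_adjoin_simple (IsAlgebraic.isIntegral he)
    exact this
  have htM : Transcendental M t := by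
    intro h
    exact ht (h.restrictScalars B)
  let eM : M := ⟨e, IntermediateField.mem_adjoin_simple_self B e⟩
  have h1 : aeval t (P.map (algebraMap B M) - C eM * Q.map (algebraMap B M)) = 0 := by
    rw [map_sub, map_mul, aeval_map_algebraMap, aeval_map_algebraMap, aeval_C]
    have h2 : algebraMap M Ω eM = e := rfl
    rw [h2, hPQ, div_mul_cancel₀ _ hQ, sub_self]
  have h3 : P.map (algebraMap B M) - C eM * Q.map (algebraMap B M) = 0 :=
    (transcendental_iff.1 htM) _ h1
  have hQ0 : Q ≠ 0 := fun h => hQ (by rw [h, map_zero])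
  have h4 := congrArg (fun p => coeff p Q.natDegree) h3
  simp only [coeff_sub, coeff_C_mul, coeff_map, coeff_zero] at h4
  have hlc : Q.coeff Q.natDegree ≠ 0 := by
    rw [coeff_natDegree]
    exact leadingCoeff_ne_zero.2 hQ0
  refine ⟨P.coeff Q.natDegree / Q.coeff Q.natDegree, ?_⟩
  have h5 : algebraMap M Ω (algebraMap B M (P.coeff Q.natDegree) -
      eM * algebraMap B M (Q.coeff Q.natDegree)) = 0 := by rw [h4, map_zero]
  rw [map_sub, map_mul, ← IsScalarTower.algebraMap_apply, ← IsScalarTower.algebraMap_apply] at h5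
  have h6 : algebraMap M Ω eM = e := rfl
  rw [h6] at h5
  rw [map_div₀, div_eq_iff (by simpa using hlc)]
  linear_combination h5

theorem closed_of {K E : Type u} [Field K] [CharZero K] [Field E] [Algebra K E]
    (B : IntermediateField K E) {ι : Type*} (ξ : ι → E)
    (hξ : IntermediateField.adjoin B (Set.range ξ) = ⊤) (t : E) (ht : Transcendental B t)
    (halg : Algebra.IsAlgebraic (IntermediateField.adjoin B {t}) E) {S : Type*} [Field S]
    [Algebra (algebraicClosure B (AlgebraicClosure E)) S] (g : ι → S)
    (H : ∀ σ : AlgebraicClosure E →ₐ[B] AlgebraicClosure E,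
      ∃ h : S →ₐ[algebraicClosure B (AlgebraicClosure E)] AlgebraicClosure E,
        ∀ i, h (g i) = σ (algebraMap E _ (ξ i))) :
    ∀ e : E, IsAlgebraic B e → e ∈ B := by
  intro e he
  by_contra hne
  have hcz : CharZero E := charZero_of_injective_algebraMap (algebraMap K E).injective
  -- `t` in the algebraic closure
  let Ω := AlgebraicClosure E
  let t' : Ω := algebraMap E Ω t
  have ht' : Transcendental B t' := by
    intro h
    exact ht ((isAlgebraic_algebraMap_iff (algebraMap E Ω).injective).1 h)
  have he' : IsAlgebraic B (algebraMap E Ω e) := he.algebraMap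
  let T : IntermediateField B Ω := IntermediateField.adjoin B {t'}
  have hTalg : Algebra.IsAlgebraic T Ω := by
    have h1 : Algebra.IsAlgebraic E Ω := inferInstance
    have h2 : Algebra.IsAlgebraic (IntermediateField.adjoin B {t}) Ω :=
      Algebra.IsAlgebraic.trans (IntermediateField.adjoin B {t}) E Ω
    have h3 : ∀ b : IntermediateField.adjoin B {t}, algebraMap E Ω b ∈ T := by
      intro b
      have h4 : (IntermediateField.adjoin B {t}).map (IsScalarTower.toAlgHom B E Ω) = T := by
        rw [IntermediateField.adjoin_map, Set.image_singleton]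
        rfl
      rw [← h4]
      exact ⟨b, b.2, rfl⟩
    let φ : IntermediateField.adjoin B {t} →+* T :=
      ((algebraMap E Ω).comp (algebraMap (IntermediateField.adjoin B {t}) E)).codRestrict
        T.toSubfield h3
    refine ⟨fun x => ?_⟩
    obtain ⟨q, hq0, hq⟩ := h2.isAlgebraic x
    refine ⟨q.map φ, (Polynomial.map_ne_zero_iff φ.injective).2 hq0, ?_⟩
    rw [aeval_def, eval₂_map]
    exact hq
  have hnT : algebraMap E Ω e ∉ T := by
    intro h
    obtain ⟨b, hb⟩ := mem_of_mem_adjoin ht' he' h
    apply hne
    have h1 : algebraMap E Ω (algebraMap B E b) = algebraMap E Ω e := by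
      rw [← IsScalarTower.algebraMap_apply]
      exact hb
    rw [← (algebraMap E Ω).injective h1]
    exact b.2
  have hczT : CharZero T := charZero_of_injective_algebraMap (algebraMap B T).injective
  have hclo : IsAlgClosure T Ω := ⟨inferInstance, hTalg⟩
  have hgal : IsGalois T Ω := inferInstance
  obtain ⟨σ, hσ⟩ : ∃ σ : Ω ≃ₐ[T] Ω, σ (algebraMap E Ω e) ≠ algebraMap E Ω e := by
    by_contra hcon
    push Not at hcon
    have h1 := (InfiniteGalois.mem_bot_iff_fixed (k := T) (K := Ω) (algebraMap E Ω e)).2 hcon
    rw [IntermediateField.mem_bot] at h1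
    obtain ⟨y, hy⟩ := h1
    exact hnT (by rw [← hy]; exact y.2)
  let F := algebraicClosure B Ω
  obtain ⟨A, D, hAD⟩ := (IntermediateField.mem_adjoin_range_iff B ξ e).1 (by rw [hξ]; trivial)
  have hD : MvPolynomial.aeval ξ D ≠ 0 := by
    intro h
    rw [h, div_zero] at hAD
    exact hne (by rw [hAD]; exact B.zero_mem)
  let eF : F := ⟨algebraMap E Ω e, he'.isIntegral⟩
  -- the relation
  have key : ∀ (τ : Ω →ₐ[B] Ω) (h : S →ₐ[F] Ω), (∀ i, h (g i) = τ (algebraMap E _ (ξ i))) →
      h (MvPolynomial.aeval g (MvPolynomial.map (algebraMap B F) A) -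
        algebraMap F S eF * MvPolynomial.aeval g (MvPolynomial.map (algebraMap B F) D)) =
      τ (algebraMap E Ω (MvPolynomial.aeval ξ A)) -
        algebraMap E Ω e * τ (algebraMap E Ω (MvPolynomial.aeval ξ D)) := by
    intro τ h hh
    have h1 : ∀ G : MvPolynomial ι B, h (MvPolynomial.aeval g (MvPolynomial.map (algebraMap B F) G)) =
        τ (algebraMap E Ω (MvPolynomial.aeval ξ G)) := by
      intro G
      induction G using MvPolynomial.induction_on with
      | C b =>
        rw [MvPolynomial.map_C, MvPolynomial.aeval_C, MvPolynomial.aeval_C, AlgHom.commutes]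
        rw [← IsScalarTower.algebraMap_apply, ← IsScalarTower.algebraMap_apply, AlgHom.commutes]
      | add p q hp hq => rw [map_add, map_add, map_add, map_add, hp, hq, map_add, map_add]
      | mul_X p i hp =>
        rw [map_mul, map_mul, map_mul, map_mul, map_mul, map_mul, hp, MvPolynomial.map_X,
          MvPolynomial.aeval_X, MvPolynomial.aeval_X, hh]
    rw [map_sub, map_mul, h1, h1, AlgHom.commutes]
    rfl
  obtain ⟨h0, hh0⟩ := H (AlgHom.id B Ω)
  have k0 := key (AlgHom.id B Ω) h0 hh0
  have hz : MvPolynomial.aeval g (MvPolynomial.map (algebraMap B F) A) -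
        algebraMap F S eF * MvPolynomial.aeval g (MvPolynomial.map (algebraMap B F) D) = 0 := by
    apply (h0 : S →+* Ω).injective
    rw [map_zero]
    refine k0.trans ?_
    show algebraMap E Ω (MvPolynomial.aeval ξ A) -
        algebraMap E Ω e * algebraMap E Ω (MvPolynomial.aeval ξ D) = 0
    rw [← map_mul, ← map_sub, hAD, div_mul_cancel₀ _ hD, sub_self, map_zero]
  let σB : Ω →ₐ[B] Ω := (σ : Ω →ₐ[T] Ω).restrictScalars B
  obtain ⟨h1, hh1⟩ := H σB
  have k1 := key σB h1 hh1
  rw [hz, map_zero] at k1
  apply hσ
  have e1 : σ (algebraMap E Ω (MvPolynomial.aeval ξ A)) = σ (algebraMap E Ω e) *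
      σ (algebraMap E Ω (MvPolynomial.aeval ξ D)) := by
    rw [← map_mul, ← map_mul, hAD, div_mul_cancel₀ _ hD]
  have e2 : σ (algebraMap E Ω (MvPolynomial.aeval ξ D)) ≠ 0 := by
    rw [Ne, map_eq_zero, map_eq_zero]
    exact hD
  have k2 : 0 = σ (algebraMap E Ω (MvPolynomial.aeval ξ A)) -
        algebraMap E Ω e * σ (algebraMap E Ω (MvPolynomial.aeval ξ D)) := k1
  rw [e1] at k2
  have k3 : (σ (algebraMap E Ω e) - algebraMap E Ω e) *
      σ (algebraMap E Ω (MvPolynomial.aeval ξ D)) = 0 := by
    rw [sub_mul]
    exact k2.symm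
  exact sub_eq_zero.1 ((mul_eq_zero.1 k3).resolve_right e2)

end Pool.Agent.Helper28.MX
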