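import Mathlib
import Pool.Agent.Helper28.MX.Closed

/-!
# Project M: the field of constants of a curve which is a double cover of the line over the
algebraic closure

`Sf A2 A1 A0` is the function field of `A2(t) u ^ 2 + A1(t) u + A0(t) = 0`.
-/

set_option autoImplicit false

namespace Pool.Agent.Helper28.MX

open Polynomial

universe u

section quadratic

variable {F : Type*} [Field F]

/-- The quadratic polynomial. -/
noncomputable def qd (A2 A1 A0 : F[X]) : (RatFunc F)[X] :=
  C (algebraMap F[X] (RatFunc F) A2) * X ^ 2 + C (algebraMap F[X] (RatFunc F) A1) * X +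
    C (algebraMap F[X] (RatFunc F) A0)

/-- The function field. -/
abbrev Sf (A2 A1 A0 : F[X]) : Type _ := AdjoinRoot (qd A2 A1 A0)

/-- The coordinate `t`. -/
noncomputable def tS (A2 A1 A0 : F[X]) : Sf A2 A1 A0 :=
  AdjoinRoot.of _ (RatFunc.X : RatFunc F)

/-- The coordinate `u`. -/
noncomputable def uS (A2 A1 A0 : F[X]) : Sf A2 A1 A0 := AdjoinRoot.root _

theorem not_sq [CharZero F] {q : F[X]} (hs : q.Separable) (hd : 1 ≤ q.natDegree) (r : RatFunc F) :
    r ^ 2 ≠ algebraMap F[X] (RatFunc F) q := by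
  intro h
  obtain ⟨p, hp⟩ := IsIntegrallyClosed.exists_algebraMap_eq_of_isIntegral_pow (R := F[X])
    (K := RatFunc F) (x := r) (n := 2) (by norm_num) (by rw [h]; exact isIntegral_algebraMap)
  have h1 : p ^ 2 = q := by
    apply IsFractionRing.injective F[X] (RatFunc F)
    rw [map_pow, hp, h]
  have h2 : IsUnit p := by
    have h3 := hs.squarefree
    rw [← h1, pow_two] at h3
    exact h3 p (dvd_refl _)
  have h4 : q.natDegree = 0 := by
    rw [← h1, natDegree_pow, natDegree_eq_zero_of_isUnit h2, mul_zero]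
  omega

theorem qd_irreducible [CharZero F] (A2 A1 A0 : F[X]) (hA : A2 ≠ 0)
    (hs : (A1 ^ 2 - 4 * A2 * A0).Separable) (hd : 1 ≤ (A1 ^ 2 - 4 * A2 * A0).natDegree) :
    Irreducible (qd A2 A1 A0) := by
  have ha : algebraMap F[X] (RatFunc F) A2 ≠ 0 := by
    rw [Ne, map_eq_zero_iff _ (IsFractionRing.injective F[X] (RatFunc F))]
    exact hA
  have hdeg : (qd A2 A1 A0).natDegree = 2 := natDegree_quadratic ha
  have hne : qd A2 A1 A0 ≠ 0 := by
    intro h
    rw [h, natDegree_zero] at hdeg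
    omega
  rw [irreducible_iff_roots_eq_zero_of_degree_le_three (by omega) (by omega)]
  rw [Multiset.eq_zero_iff_forall_notMem]
  intro z hz
  rw [mem_roots hne, IsRoot.def] at hz
  apply not_sq hs hd (2 * algebraMap F[X] (RatFunc F) A2 * z + algebraMap F[X] (RatFunc F) A1)
  unfold qd at hz
  simp only [eval_add, eval_mul, eval_C, eval_pow, eval_X] at hz
  simp only [map_sub, map_mul, map_pow, map_ofNat]
  linear_combination 4 * algebraMap F[X] (RatFunc F) A2 * hz

variable {Ω : Type*} [Field Ω] [Algebra F Ω]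

/-- Specialisation. -/
theorem exists_lift (A2 A1 A0 : F[X]) (t u : Ω) (ht : Transcendental F t)
    (hu : aeval t A2 * u ^ 2 + aeval t A1 * u + aeval t A0 = 0) :
    ∃ h : Sf A2 A1 A0 →ₐ[F] Ω, h (tS A2 A1 A0) = t ∧ h (uS A2 A1 A0) = u := by
  have hinj : Function.Injective (aeval t : F[X] →ₐ[F] Ω) :=
    transcendental_iff_injective.1 ht
  let i : RatFunc F →+* Ω := IsFractionRing.lift (A := F[X]) (K := RatFunc F)
    (g := (aeval t : F[X] →ₐ[F] Ω).toRingHom) hinj
  have hi : ∀ p : F[X], i (algebraMap F[X] (RatFunc F) p) = aeval t p := fun p =>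
    IsFractionRing.lift_algebraMap (A := F[X]) (K := RatFunc F) hinj p
  have he : (qd A2 A1 A0).eval₂ i u = 0 := by
    unfold qd
    simp only [eval₂_add, eval₂_mul, eval₂_C, eval₂_pow, eval₂_X, hi]
    exact hu
  let h0 : Sf A2 A1 A0 →+* Ω := AdjoinRoot.lift i u he
  have h0of : ∀ r, h0 (AdjoinRoot.of _ r) = i r := fun r => AdjoinRoot.lift_of he
  refine ⟨{ h0 with commutes' := fun a => ?_ }, ?_, AdjoinRoot.lift_root he⟩
  · have e1 : algebraMap F (Sf A2 A1 A0) a =
        AdjoinRoot.of _ (algebraMap F[X] (RatFunc F) (C a)) := by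
      rw [IsScalarTower.algebraMap_apply F (RatFunc F) (Sf A2 A1 A0)]
      rfl
    show h0 _ = _
    rw [e1, h0of, hi, aeval_C]
  · show h0 (AdjoinRoot.of _ RatFunc.X) = t
    rw [h0of, ← RatFunc.algebraMap_X, hi, aeval_X]

end quadratic

/-- `B` is algebraically closed in `E` if the curve is, uniformly in the points, a double cover
of the line over the algebraic closure of `B`. -/
theorem closed_of_quadratic {K E : Type u} [Field K] [CharZero K] [Field E] [Algebra K E]
    (B : IntermediateField K E) {ι : Type*} (ξ : ι → E)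
    (hξ : IntermediateField.adjoin B (Set.range ξ) = ⊤) (t0 : E) (ht0 : Transcendental B t0)
    (halg : Algebra.IsAlgebraic (IntermediateField.adjoin B {t0}) E)
    (A2 A1 A0 : (algebraicClosure B (AlgebraicClosure E))[X]) (hA : A2 ≠ 0)
    (hs : (A1 ^ 2 - 4 * A2 * A0).Separable) (hd : 1 ≤ (A1 ^ 2 - 4 * A2 * A0).natDegree)
    (g : ι → Sf A2 A1 A0)
    (H : ∀ σ : AlgebraicClosure E →ₐ[B] AlgebraicClosure E, ∃ t u : AlgebraicClosure E,
      Transcendental (algebraicClosure B (AlgebraicClosure E)) t ∧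
      aeval t A2 * u ^ 2 + aeval t A1 * u + aeval t A0 = 0 ∧
      ∀ h : Sf A2 A1 A0 →ₐ[algebraicClosure B (AlgebraicClosure E)] AlgebraicClosure E,
        h (tS A2 A1 A0) = t → h (uS A2 A1 A0) = u →
        ∀ i, h (g i) = σ (algebraMap E _ (ξ i))) :
    ∀ e : E, IsAlgebraic B e → e ∈ B := by
  have hcz : CharZero (algebraicClosure B (AlgebraicClosure E)) :=
    charZero_of_injective_algebraMap (algebraMap B _).injective
  have hirr : Fact (Irreducible (qd A2 A1 A0)) := ⟨qd_irreducible A2 A1 A0 hA hs hd⟩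
  refine closed_of B ξ hξ t0 ht0 halg (S := Sf A2 A1 A0) g fun σ => ?_
  obtain ⟨t, u, ht, hu, hg⟩ := H σ
  obtain ⟨h, h1, h2⟩ := exists_lift A2 A1 A0 t u ht hu
  exact ⟨h, hg h h1 h2⟩

end Pool.Agent.Helper28.MX
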