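import Mathlib

/-!
# Project M: forms without common zeros, for general coefficients

If forms of degree `N` with coefficients in `ℚ[c]` specialise at `c0` to all the monomials of degree
`N` then they have no common zero outside the origin for general `c`.
-/

set_option autoImplicit false

namespace Pool.Agent.Helper28.MX

open MvPolynomial

/-- Monomials of degree `N`. -/
abbrev Mon (σ : Type) [Fintype σ] [DecidableEq σ] (N : ℕ) :=
  {w : σ →₀ ℕ // w ∈ Finset.univ.finsuppAntidiag N}

theorem mem_mon {σ : Type} [Fintype σ] [DecidableEq σ] {N : ℕ} {w : σ →₀ ℕ} :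
    w ∈ Finset.univ.finsuppAntidiag N ↔ w.degree = N := by
  rw [Finset.mem_finsuppAntidiag]
  constructor
  · rintro ⟨h, -⟩
    rw [Finsupp.degree_eq_sum]
    exact h
  · intro h
    rw [Finsupp.degree_eq_sum] at h
    exact ⟨h, Finset.subset_univ _⟩

theorem eval_eq_sum {σ : Type} [Fintype σ] [DecidableEq σ] {N : ℕ} {F : Type*} [CommRing F]
    (g : MvPolynomial σ F) (hg : g.IsHomogeneous N) (v : σ → F) :
    eval v g = ∑ w : Mon σ N, coeff w.1 g * ∏ i, v i ^ w.1 i := by
  rw [eval_eq' v g]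
  have h1 : ∑ w : Mon σ N, coeff w.1 g * ∏ i, v i ^ w.1 i =
      ∑ w ∈ Finset.univ.finsuppAntidiag N, coeff w g * ∏ i, v i ^ w i :=
    Finset.sum_coe_sort (Finset.univ.finsuppAntidiag N) fun w => coeff w g * ∏ i, v i ^ w i
  rw [h1]
  apply Finset.sum_subset
  · intro w hw
    rw [mem_mon]
    have := hg (mem_support_iff.1 hw)
    rw [← this, Finsupp.degree_eq_weight_one]
    rfl
  · intro w _ hw
    rw [notMem_support_iff.1 hw, zero_mul]

/-- The determinant. -/
theorem macaulay {σ C : Type} [Fintype σ] [DecidableEq σ] (N : ℕ) (hN : N ≠ 0)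
    (G : (σ →₀ ℕ) → MvPolynomial σ (MvPolynomial C ℚ))
    (hG : ∀ w : σ →₀ ℕ, w.degree = N → (G w).IsHomogeneous N) (c0 : C → ℚ)
    (h0 : ∀ w : σ →₀ ℕ, w.degree = N → map (eval c0) (G w) = monomial w 1) :
    ∃ Δ : MvPolynomial C ℚ, eval c0 Δ ≠ 0 ∧ ∀ (F : Type) [Field F] [Algebra ℚ F] (c : C → F),
      aeval c Δ ≠ 0 → ∀ v : σ → F,
        (∀ w : σ →₀ ℕ, w.degree = N →
          eval v (map (aeval c : MvPolynomial C ℚ →ₐ[ℚ] F).toRingHom (G w)) = 0) → v = 0 := by
  classical
  let A : Matrix (Mon σ N) (Mon σ N) (MvPolynomial C ℚ) := fun w w' => coeff w'.1 (G w.1)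
  refine ⟨A.det, ?_, fun F _ _ c hc v hv => ?_⟩
  · rw [RingHom.map_det]
    have : (eval c0).mapMatrix A = 1 := by
      ext w w'
      have h1 := h0 w.1 (mem_mon.1 w.2)
      have h2 : coeff w'.1 (map (eval c0) (G w.1)) = coeff w'.1 (monomial w.1 (1 : ℚ)) := by rw [h1]
      rw [coeff_map, coeff_monomial] at h2
      show eval c0 (coeff w'.1 (G w.1)) = _
      rw [h2, Matrix.one_apply]
      by_cases h : w = w'
      · rw [if_pos h, if_pos (by rw [h])]
      · rw [if_neg h, if_neg fun h' => h (Subtype.ext h')]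
    rw [this, Matrix.det_one]
    exact one_ne_zero
  · have hdet : ((aeval c : MvPolynomial C ℚ →ₐ[ℚ] F).toRingHom.mapMatrix A).det ≠ 0 := by
      rw [← RingHom.map_det]
      exact hc
    have hker : (((aeval c : MvPolynomial C ℚ →ₐ[ℚ] F).toRingHom.mapMatrix A).mulVec
        fun w : Mon σ N => ∏ i, v i ^ w.1 i) = 0 := by
      funext w
      have h1 := hv w.1 (mem_mon.1 w.2)
      rw [eval_eq_sum (N := N) _ ((hG w.1 (mem_mon.1 w.2)).map _)] at h1
      rw [Pi.zero_apply, ← h1]
      unfold Matrix.mulVec dotProduct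
      refine Finset.sum_congr rfl fun w' _ => ?_
      rw [coeff_map]
      rfl
    have hz : (fun w : Mon σ N => ∏ i, v i ^ w.1 i) = 0 := by
      by_contra hne
      exact hdet (Matrix.exists_mulVec_eq_zero_iff.1 ⟨_, hne, hker⟩)
    have hz' : ∀ w : σ →₀ ℕ, w.degree = N → ∏ i, v i ^ w i = 0 := fun w hw =>
      congrFun hz ⟨w, mem_mon.2 hw⟩
    funext j
    have h1 := hz' (Finsupp.single j N) (Finsupp.degree_single j N)
    have h2 : ∏ i, v i ^ (Finsupp.single j N) i = v j ^ N := by
      rw [Finset.prod_eq_single j, Finsupp.single_eq_same]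
      · intro i _ hi
        rw [Finsupp.single_eq_of_ne hi, pow_zero]
      · intro h
        exact absurd (Finset.mem_univ j) h
    rw [h2] at h1
    exact (pow_eq_zero_iff hN).1 h1

end Pool.Agent.Helper28.MX
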