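import Pool.Agent.Helper87.MX.Fr
import Pool.Agent.Helper61.RH.Circle
import Pool.Agent.Helper45.MX.W3a

/-!
# MixingRates, W3b: dyadic entropy and masses of balls
-/

set_option autoImplicit false

open MeasureTheory Finset Filter

namespace Pool.Agent.Helper28.MX

open Pool.Agent.Helper87.MX

/-- a ball whose radius is at most the length of the arcs meets three arcs only -/
theorem ball_sub (K i : ℕ) (r : ℝ) (hr : r * 2 ^ K ≤ 1) (x : Tor) (hx : x ∈ arc K i) :
    Metric.closedBall x r ⊆ arc K (i + (2 ^ K - 1)) ∪ arc K i ∪ arc K (i + 1) := by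
  obtain ⟨t, ht, rfl⟩ := hx
  intro y hy
  have h2 : (0 : ℝ) < 2 ^ K := by positivity
  have h1 : 1 ≤ 2 ^ K := Nat.one_le_two_pow
  obtain ⟨ht1, ht2⟩ := ht
  rw [div_le_iff₀ h2] at ht1
  rw [lt_div_iff₀ h2] at ht2
  obtain ⟨w, rfl⟩ := QuotientAddGroup.mk_surjective y
  rw [Metric.mem_closedBall, dist_eq_norm] at hy
  have e1 : ((w : ℝ) : Tor) - (t : Tor) = ((w - t : ℝ) : Tor) := by
    rw [AddCircle.coe_sub]
  change ‖((w : ℝ) : Tor) - (t : Tor)‖ ≤ r at hy
  rw [e1, UnitAddCircle.norm_eq] at hy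
  obtain ⟨s, hs⟩ : ∃ s : ℝ, s = w - round (w - t) := ⟨_, rfl⟩
  have hst : |s - t| ≤ r := by
    rw [hs]
    have : w - (round (w - t) : ℝ) - t = w - t - round (w - t) := by ring
    rwa [this]
  have hsw : ((s : ℝ) : Tor) = ((w : ℝ) : Tor) := by
    rw [hs, AddCircle.coe_sub, sub_eq_self]
    have := AddCircle.coe_eq_zero_iff (p := (1 : ℝ)) (x := ((round (w - t) : ℤ) : ℝ))
    rw [this]
    exact ⟨round (w - t), by simp⟩
  change ((w : ℝ) : Tor) ∈ _
  rw [← hsw]
  obtain ⟨h3, h4⟩ := abs_le.1 hst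
  have h5 : (i : ℝ) - 1 ≤ s * 2 ^ K := by nlinarith
  have h6 : s * 2 ^ K < i + 2 := by nlinarith
  rcases lt_or_ge (s * 2 ^ K) i with h7 | h7
  · refine Or.inl (Or.inl ⟨s + 1, ⟨?_, ?_⟩, ?_⟩)
    · rw [div_le_iff₀ h2]
      push_cast [Nat.cast_sub h1]
      linarith
    · rw [lt_div_iff₀ h2]
      push_cast [Nat.cast_sub h1]
      linarith
    · change ((s + 1 : ℝ) : Tor) = (s : Tor)
      rw [AddCircle.coe_add, AddCircle.coe_period, add_zero]
  · rcases lt_or_ge (s * 2 ^ K) (i + 1) with h8 | h8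
    · refine Or.inl (Or.inr ⟨s, ⟨?_, ?_⟩, rfl⟩)
      · rwa [div_le_iff₀ h2]
      · rwa [lt_div_iff₀ h2]
    · refine Or.inr ⟨s, ⟨?_, ?_⟩, rfl⟩
      · rw [div_le_iff₀ h2]
        push_cast
        exact h8
      · rw [lt_div_iff₀ h2]
        push_cast
        linarith

/-- sums over a period -/
theorem sum_shift (f : ℕ → ℝ) (N : ℕ) (hf : ∀ i, f (i + N) = f i) (a : ℕ) :
    ∑ i ∈ range N, f (i + a) = ∑ i ∈ range N, f i := by
  induction a with
  | zero => rfl
  | succ a ih =>
    have h1 : ∑ i ∈ range N, f (i + (a + 1)) = ∑ i ∈ range N, f (i + 1 + a) :=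
      Finset.sum_congr rfl fun i _ => by rw [add_assoc, add_comm 1 a]
    have h2 := Finset.sum_range_succ (fun i => f (i + a)) N
    have h3 := Finset.sum_range_succ' (fun i => f (i + a)) N
    rw [h1, ← ih]
    have h4 : f (N + a) = f (0 + a) := by
      rw [add_comm N a, hf, zero_add]
    linarith

theorem arc_period (K i : ℕ) : arc K (i + 2 ^ K) = arc K i := by
  change Helper75.RE.arc K (i + 2 ^ K) = Helper75.RE.arc K i
  rw [Helper75.RE.arc_eq, Helper75.RE.arc_eq, Nat.add_mod_right]

theorem measurableSet_arc' (K i : ℕ) : MeasurableSet (arc K i) :=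
  Helper75.RE.measurableSet_arc K i

/-- almost every point has balls of positive mass -/
theorem ball_pos (μ : Measure Tor) (r : ℝ) (hr : 0 < r) :
    ∀ᵐ x ∂μ, μ (Metric.closedBall x r) ≠ 0 := by
  rw [ae_iff]
  apply measure_null_of_locally_null
  intro x hx
  rw [Set.mem_setOf_eq, not_not] at hx
  exact ⟨Metric.closedBall x r, mem_nhdsWithin_of_mem_nhds (Metric.closedBall_mem_nhds x hr), hx⟩

/-- integrability of `- log μ(B(x, r))` -/
theorem integrable_log (μ : Measure Tor) [IsProbabilityMeasure μ] (r : ℝ) (hr : 0 < r) :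
    Integrable (fun x => -Real.log (μ.real (Metric.closedBall x r))) μ := by
  obtain ⟨n, hn0, hn⟩ : ∃ n : ℕ, 0 < n ∧ 1 / (n : ℝ) ≤ r := by
    obtain ⟨n, hn⟩ := exists_nat_one_div_lt hr
    refine ⟨n + 1, Nat.succ_pos n, ?_⟩
    push_cast
    exact hn.le
  have hl := Pool.Agent.Helper45.MX.lint_inv μ n hn0
  have hm1 : Measurable fun x : Tor => μ (Metric.closedBall x (1 / n)) :=
    Pool.Agent.Helper45.MX.measurable_ball μ _
  have hm : Measurable fun x : Tor => μ (Metric.closedBall x r) :=
    Pool.Agent.Helper45.MX.measurable_ball μ _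
  refine ⟨((Real.measurable_log.comp hm.ennreal_toReal).neg).aestronglyMeasurable, ?_⟩
  have h0 : ∀ x : Tor, 0 ≤ -Real.log (μ.real (Metric.closedBall x r)) := fun x =>
    neg_nonneg.2 (Real.log_nonpos measureReal_nonneg measureReal_le_one)
  rw [hasFiniteIntegral_iff_ofReal (Filter.Eventually.of_forall h0)]
  refine lt_of_le_of_lt (lintegral_mono_ae ?_) (hl.trans_lt (ENNReal.natCast_lt_top _))
  filter_upwards [ball_pos μ r hr] with x hx
  have h3 : 0 < μ.real (Metric.closedBall x r) :=
    ENNReal.toReal_pos hx (measure_ne_top _ _)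
  have h4 : -Real.log (μ.real (Metric.closedBall x r)) ≤ (μ.real (Metric.closedBall x r))⁻¹ := by
    have := Real.one_sub_inv_le_log_of_pos h3
    linarith
  calc ENNReal.ofReal (-Real.log (μ.real (Metric.closedBall x r)))
      ≤ ENNReal.ofReal ((μ.real (Metric.closedBall x r))⁻¹) := ENNReal.ofReal_le_ofReal h4
    _ ≤ (μ (Metric.closedBall x r))⁻¹ := by
        rw [Measure.real, ← ENNReal.toReal_inv]
        exact ENNReal.ofReal_toReal_le
    _ ≤ (μ (Metric.closedBall x (1 / n)))⁻¹ :=
        ENNReal.inv_le_inv.2 (measure_mono (Metric.closedBall_subset_closedBall hn))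

/-- **W3b.** -/
theorem s_W3b : S_W3b := by
  intro μ _ r K hr hrK
  have hint := integrable_log μ r hr
  obtain ⟨m, hm⟩ : ∃ m : ℕ → ℝ, m = fun i => μ.real (arc K i) := ⟨_, rfl⟩
  have hm0 : ∀ i, 0 ≤ m i := fun i => by
    rw [hm]
    exact measureReal_nonneg
  have hmp : ∀ i, m (i + 2 ^ K) = m i := fun i => by
    rw [hm]
    change μ.real (arc K (i + 2 ^ K)) = μ.real (arc K i)
    rw [arc_period]
  have hsum : ∑ i ∈ range (2 ^ K), m i = 1 := by
    rw [hm]
    exact Pool.Agent.Helper61.RH.sum_arc (ν := μ) K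
  -- one arc
  have hone : ∀ i, Real.negMulLog (m i) ≤
      ∫ x in arc K i, -Real.log (μ.real (Metric.closedBall x r)) ∂μ +
        (m (i + (2 ^ K - 1)) + m i + m (i + 1)) / 3 - m i + m i * Real.log 3 := by
    intro i
    have hle : ∀ x ∈ arc K i, μ.real (Metric.closedBall x r) ≤
        m (i + (2 ^ K - 1)) + m i + m (i + 1) := by
      intro x hx
      refine (measureReal_mono (ball_sub K i r hrK x hx)).trans ?_
      refine (measureReal_union_le _ _).trans ?_
      rw [hm]
      exact add_le_add (measureReal_union_le _ _) le_rfl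
    rcases eq_or_lt_of_le (hm0 i) with hmi | hmi
    · have h1 : μ.restrict (arc K i) = 0 := by
        rw [Measure.restrict_eq_zero]
        have h2 : μ.real (arc K i) = 0 := by
          have := hmi.symm
          rwa [hm] at this
        rwa [measureReal_eq_zero_iff] at h2
      rw [← hmi, h1, integral_zero_measure, Real.negMulLog_zero]
      have h3 := hm0 (i + (2 ^ K - 1))
      have h4 := hm0 (i + 1)
      have : 0 ≤ (m (i + (2 ^ K - 1)) + 0 + m (i + 1)) / 3 := by positivity
      linarith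
    · obtain ⟨T, hT⟩ : ∃ T, T = m (i + (2 ^ K - 1)) + m i + m (i + 1) := ⟨_, rfl⟩
      rw [← hT] at hle ⊢
      have hae : ∀ᵐ x ∂(μ.restrict (arc K i)), -Real.log (m i) - (T / (3 * m i) - 1 + Real.log 3) ≤
          -Real.log (μ.real (Metric.closedBall x r)) := by
        filter_upwards [ae_restrict_of_ae (ball_pos μ r hr),
          ae_restrict_mem (measurableSet_arc' K i)] with x hx hxI
        have h3 : 0 < μ.real (Metric.closedBall x r) :=
          ENNReal.toReal_pos hx (measure_ne_top _ _)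
        have h4 := hle x hxI
        have h5 := Real.log_le_sub_one_of_pos (x := μ.real (Metric.closedBall x r) / (3 * m i))
          (by positivity)
        rw [Real.log_div h3.ne' (by positivity), Real.log_mul (by norm_num) hmi.ne'] at h5
        have h6 : μ.real (Metric.closedBall x r) / (3 * m i) ≤ T / (3 * m i) := by gcongr
        linarith
      have h7 : ∫ x in arc K i, (-Real.log (m i) - (T / (3 * m i) - 1 + Real.log 3)) ∂μ ≤
          ∫ x in arc K i, -Real.log (μ.real (Metric.closedBall x r)) ∂μ :=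
        integral_mono_ae (integrable_const _) hint.integrableOn hae
      rw [setIntegral_const, smul_eq_mul] at h7
      have h8 : μ.real (arc K i) = m i := by rw [hm]
      rw [h8] at h7
      have h9 : m i * (-Real.log (m i) - (T / (3 * m i) - 1 + Real.log 3)) =
          Real.negMulLog (m i) - T / 3 + m i - m i * Real.log 3 := by
        rw [Real.negMulLog]
        field_simp
        ring
      rw [h9] at h7
      linarith
  have hent : ent μ K = ∑ i ∈ range (2 ^ K), Real.negMulLog (m i) := by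
    rw [hm]
    rfl
  have hU : (⋃ i ∈ range (2 ^ K), arc K i) = Set.univ := by
    rw [Set.eq_univ_iff_forall]
    intro x
    rw [Set.mem_iUnion₂]
    refine ⟨Helper75.RE.idx K x, Finset.mem_range.2 (Helper75.RE.idx_lt K x), ?_⟩
    change x ∈ Helper75.RE.arc K _
    rw [Helper75.RE.mem_arc_iff, Nat.mod_eq_of_lt (Helper75.RE.idx_lt K x)]
  have hint2 : ∑ i ∈ range (2 ^ K), ∫ x in arc K i, -Real.log (μ.real (Metric.closedBall x r)) ∂μ =
      phi μ r := by
    unfold phi
    rw [← integral_biUnion_finset, hU, Measure.restrict_univ]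
    · exact fun i _ => measurableSet_arc' K i
    · intro i hi j hj hij
      rw [Finset.mem_coe, Finset.mem_range] at hi hj
      refine Set.disjoint_left.2 fun x hx hx' => hij ?_
      change x ∈ Helper75.RE.arc K i at hx
      change x ∈ Helper75.RE.arc K j at hx'
      rw [Helper75.RE.mem_arc_iff, Nat.mod_eq_of_lt hi] at hx
      rw [Helper75.RE.mem_arc_iff, Nat.mod_eq_of_lt hj] at hx'
      exact hx.symm.trans hx'
    · exact fun i _ => hint.integrableOn
  calc ent μ K = ∑ i ∈ range (2 ^ K), Real.negMulLog (m i) := hent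
    _ ≤ ∑ i ∈ range (2 ^ K), (∫ x in arc K i, -Real.log (μ.real (Metric.closedBall x r)) ∂μ +
        (m (i + (2 ^ K - 1)) + m i + m (i + 1)) / 3 - m i + m i * Real.log 3) :=
        Finset.sum_le_sum fun i _ => hone i
    _ = phi μ r + (∑ i ∈ range (2 ^ K), m (i + (2 ^ K - 1)) + ∑ i ∈ range (2 ^ K), m i +
          ∑ i ∈ range (2 ^ K), m (i + 1)) / 3 - ∑ i ∈ range (2 ^ K), m i +
          (∑ i ∈ range (2 ^ K), m i) * Real.log 3 := by
        rw [← hint2, Finset.sum_mul, ← Finset.sum_add_distrib, ← Finset.sum_add_distrib,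
          Finset.sum_div, ← Finset.sum_add_distrib, ← Finset.sum_sub_distrib,
          ← Finset.sum_add_distrib]
    _ = phi μ r + Real.log 3 := by
        rw [sum_shift m _ hmp, sum_shift m _ hmp, hsum]
        ring

end Pool.Agent.Helper28.MX
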